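import Pool.Agent.H10.MB.RowR
import Pool.Agent.H47.MC.Defs

set_option linter.style.longLine false

/-! MB2, second version, row R: the next centre of the construction satisfies the distortion bounds. -/

namespace Pool.Agent.H10.MC

open Finset
open Pool.Agent.H51.IR Pool.Agent.H98.MB Pool.Agent.H47.MC
open Pool.Agent.H10.MB (Gs Gs_zero Gs_succ Gs_block Dp_eq_mul sum_block)

theorem B_one (c' x : ℂ) : B c' x 1 = 1 := by simp [B]

theorem B_succ (c' x : ℂ) {i : ℕ} (hi : 1 ≤ i) :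
    B c' x (i + 1) = B c' x i * (2 * (quad c')^[i] x) := by
  unfold B
  rw [Finset.prod_Ico_succ_top hi]

theorem A_block (c' : ℂ) (N : ℕ) {i : ℕ} (hi : 1 ≤ i) :
    A c' (N + i) = A c' (N + 1) * B c' (crit c' N) i := Pool.Agent.H10.MB.A_block c' N hi

/-- the sum of the inverses of the derivatives along the orbit of `x` -/
noncomputable def gB (c' x : ℂ) (j : ℕ) : ℂ := ∑ l ∈ Icc 1 j, (B c' x l)⁻¹

theorem gB_succ (c' x : ℂ) (j : ℕ) : gB c' x (j + 1) = gB c' x j + (B c' x (j + 1))⁻¹ := by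
  unfold gB
  rw [Finset.sum_Icc_succ_top (by omega)]

theorem Dx_eq_mul {c' x : ℂ} {j : ℕ} (hj : 1 ≤ j) (hB : ∀ l ∈ Icc 1 j, B c' x l ≠ 0) :
    Dx c' x j = B c' x j * gB c' x j := by
  induction j, hj using Nat.le_induction with
  | base => simp [Dx, gB, B_one]
  | succ j hj ih =>
    have hB' : ∀ l ∈ Icc 1 j, B c' x l ≠ 0 := fun l hl =>
      hB l (Icc_subset_Icc_right (Nat.le_succ j) hl)
    have hA : B c' x (j + 1) ≠ 0 := hB (j + 1) (Finset.mem_Icc.2 ⟨by omega, le_rfl⟩)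
    have h1 : Dx c' x (j + 1) = 2 * (quad c')^[j] x * Dx c' x j + 1 := rfl
    rw [h1, ih hB', gB_succ, mul_add, mul_inv_cancel₀ hA, B_succ _ _ hj]
    ring

theorem norm_ge_of_sub {u v : ℂ} {s : ℝ} (h : ‖u - v‖ ≤ s * ‖v‖) : (1 - s) * ‖v‖ ≤ ‖u‖ := by
  have h6 := norm_le_norm_add_norm_sub u v
  linarith

theorem norm_le_of_sub {u v : ℂ} {s : ℝ} (h : ‖u - v‖ ≤ s * ‖v‖) : ‖u‖ ≤ (1 + s) * ‖v‖ := by
  have h6 := norm_le_norm_add_norm_sub' u v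
  linarith

theorem term_eq {c : ℂ} {j : ℕ} (hA : A c j ≠ 0) (hD : Dp c j = A c j * Gs c j) :
    ‖Dp c j‖ ^ 2 / (‖crit c j‖ * ‖A c j‖) = ‖A c j‖ * ‖Gs c j‖ ^ 2 / ‖crit c j‖ := by
  have h1 : ‖A c j‖ ≠ 0 := norm_ne_zero_iff.2 hA
  rw [hD, norm_mul, mul_pow, mul_comm ‖crit c j‖, pow_two ‖A c j‖, mul_assoc,
    mul_div_mul_left _ _ h1]

/-- the hypotheses of the row -/
structure Hyp (c : ℂ) (n : ℕ) (c' : ℂ) (q : ℕ) : Prop where
  hc : Centre c n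
  hq : 20 ≤ q
  near : ∀ m < q, Near c n c' (crit c' (m * n))
  lo : ∀ m, 1 ≤ m → m < q → 1.25 ≤ ‖A c n‖ * ‖crit c' (m * n)‖
  hi : ∀ m, 1 ≤ m → m < q → ‖A c n‖ * ‖crit c' (m * n)‖ ≤ 2.3
  one : 1.6 ≤ ‖A c n‖ * ‖crit c' (1 * n)‖

/-- the derivative at the beginning of the `m`-th block -/
noncomputable def W (c' : ℂ) (n m : ℕ) : ℂ := A c' (m * n + 1)

theorem W_zero (c' : ℂ) (n : ℕ) : W c' n 0 = 1 := by
  unfold W
  rw [zero_mul, zero_add, A_one]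

variable {c c' : ℂ} {n q : ℕ}

theorem A_eq (c' : ℂ) (n m : ℕ) {i : ℕ} (hi : 1 ≤ i) :
    A c' (m * n + i) = W c' n m * B c' (crit c' (m * n)) i := A_block c' (m * n) hi

theorem W_succ (c' : ℂ) {n : ℕ} (hn : 1 ≤ n) (m : ℕ) :
    W c' n (m + 1) = W c' n m * B c' (crit c' (m * n)) n * (2 * crit c' ((m + 1) * n)) := by
  have h1 : W c' n (m + 1) = A c' ((m * n + n) + 1) := by
    unfold W
    rw [add_one_mul]
  rw [h1, A_succ _ (by omega), A_eq c' n m hn, add_one_mul]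

theorem Gs_eq (c' : ℂ) (n m i : ℕ) :
    Gs c' (m * n + i) = Gs c' (m * n) + (W c' n m)⁻¹ * gB c' (crit c' (m * n)) i := by
  rw [Gs_block]
  unfold gB
  rw [mul_sum]
  congr 1
  refine Finset.sum_congr rfl fun l hl => ?_
  rw [Finset.mem_Icc] at hl
  rw [A_eq c' n m hl.1, mul_inv]

namespace Hyp

variable (h : Hyp c n c' q)

include h

theorem A_ne {j : ℕ} (hj : j ≤ n) : A c j ≠ 0 :=
  A_ne_zero fun i hi => h.hc.ne i (Finset.Ico_subset_Ico_right hj hi)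

theorem a_pos : 0 < ‖A c n‖ := norm_pos_iff.2 (h.A_ne le_rfl)

theorem B_le {m : ℕ} (hm : m < q) {j : ℕ} (hj : 1 ≤ j) (hjn : j ≤ n) :
    ‖B c' (crit c' (m * n)) j‖ ≤ 1.005 * ‖A c j‖ := by
  have := norm_le_of_sub ((h.near m hm).prod j (Finset.mem_Icc.2 ⟨hj, hjn⟩))
  linarith

theorem B_ge {m : ℕ} (hm : m < q) {j : ℕ} (hj : 1 ≤ j) (hjn : j ≤ n) :
    0.995 * ‖A c j‖ ≤ ‖B c' (crit c' (m * n)) j‖ := by
  have := norm_ge_of_sub ((h.near m hm).prod j (Finset.mem_Icc.2 ⟨hj, hjn⟩))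
  linarith

theorem B_pos {m : ℕ} (hm : m < q) {j : ℕ} (hj : 1 ≤ j) (hjn : j ≤ n) :
    0 < ‖B c' (crit c' (m * n)) j‖ := by
  have h1 := h.B_ge hm hj hjn
  have h2 : 0 < ‖A c j‖ := norm_pos_iff.2 (h.A_ne hjn)
  exact lt_of_lt_of_le (by positivity) h1

theorem W_grow {m : ℕ} (hm : m + 1 < q) {s : ℝ}
    (hs : s ≤ ‖A c n‖ * ‖crit c' ((m + 1) * n)‖) : 1.99 * s * ‖W c' n m‖ ≤ ‖W c' n (m + 1)‖ := by
  have h1 := h.B_ge (m := m) (by omega) h.hc.one_le le_rfl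
  rw [W_succ c' h.hc.one_le, norm_mul, norm_mul, norm_mul]
  have h2 : ‖(2 : ℂ)‖ = 2 := by norm_num
  rw [h2]
  have hQ := norm_nonneg (W c' n m)
  have hX := norm_nonneg (crit c' ((m + 1) * n))
  calc 1.99 * s * ‖W c' n m‖ ≤ 1.99 * (‖A c n‖ * ‖crit c' ((m + 1) * n)‖) * ‖W c' n m‖ := by gcongr
    _ = ‖W c' n m‖ * (0.995 * ‖A c n‖) * (2 * ‖crit c' ((m + 1) * n)‖) := by ring
    _ ≤ ‖W c' n m‖ * ‖B c' (crit c' (m * n)) n‖ * (2 * ‖crit c' ((m + 1) * n)‖) := by gcongr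

theorem W_step {m : ℕ} (hm : m + 1 < q) : 2.4875 * ‖W c' n m‖ ≤ ‖W c' n (m + 1)‖ := by
  have := h.W_grow hm (h.lo (m + 1) (by omega) hm)
  linarith

theorem W_step_up {m : ℕ} (hm : m + 1 < q) : ‖W c' n (m + 1)‖ ≤ 5 * ‖W c' n m‖ := by
  have h1 := h.B_le (m := m) (by omega) h.hc.one_le le_rfl
  have h3 := h.hi (m + 1) (by omega) hm
  rw [W_succ c' h.hc.one_le, norm_mul, norm_mul, norm_mul]
  have h2 : ‖(2 : ℂ)‖ = 2 := by norm_num
  rw [h2]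
  have hQ := norm_nonneg (W c' n m)
  have hX := norm_nonneg (crit c' ((m + 1) * n))
  calc ‖W c' n m‖ * ‖B c' (crit c' (m * n)) n‖ * (2 * ‖crit c' ((m + 1) * n)‖)
      ≤ ‖W c' n m‖ * (1.005 * ‖A c n‖) * (2 * ‖crit c' ((m + 1) * n)‖) := by gcongr
    _ = 2.01 * (‖A c n‖ * ‖crit c' ((m + 1) * n)‖) * ‖W c' n m‖ := by ring
    _ ≤ 2.01 * 2.3 * ‖W c' n m‖ := by gcongr
    _ ≤ 5 * ‖W c' n m‖ := by linarith

theorem W_le {m : ℕ} (hm : m < q) : ‖W c' n m‖ ≤ 5 ^ m := by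
  induction m with
  | zero => rw [W_zero, norm_one, pow_zero]
  | succ m ih =>
    have h1 := ih (by omega)
    have h2 := h.W_step_up hm
    rw [pow_succ]
    linarith

theorem W_one : 3.184 ≤ ‖W c' n 1‖ := by
  have hq := h.hq
  have := h.W_grow (m := 0) (s := 1.6) (by omega) (by simpa using h.one)
  rw [W_zero, norm_one] at this
  simpa using this.trans' (by norm_num)

theorem W_ge {m : ℕ} (hm1 : 1 ≤ m) (hm : m < q) : 2 ^ m ≤ 0.995 * ‖W c' n m‖ := by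
  induction m, hm1 using Nat.le_induction with
  | base =>
    have := h.W_one
    norm_num
    linarith
  | succ m hm1 ih =>
    have h1 := ih (by omega)
    have h2 := h.W_step hm
    have h3 := norm_nonneg (W c' n m)
    rw [pow_succ]
    linarith

theorem W_pos {m : ℕ} (hm : m < q) : 0 < ‖W c' n m‖ := by
  rcases Nat.eq_zero_or_pos m with rfl | hm0
  · rw [W_zero, norm_one]
    exact one_pos
  · have h1 := h.W_ge hm0 hm
    have h2 : (0 : ℝ) < 2 ^ m := by positivity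
    linarith

/-- the sum of the inverses of the derivatives at the beginnings of the blocks -/
theorem sum_inv {m : ℕ} (hm1 : 1 ≤ m) (hm : m < q) :
    ∑ l ∈ range m, ‖W c' n l‖⁻¹ + 1.6724 * ‖W c' n m‖⁻¹ ≤ 1.5253 := by
  induction m, hm1 using Nat.le_induction with
  | base =>
    rw [Finset.sum_range_one, W_zero, norm_one, inv_one]
    have h1 : ‖W c' n 1‖⁻¹ ≤ (3.184 : ℝ)⁻¹ := inv_anti₀ (by norm_num) h.W_one
    have h2 : (3.184 : ℝ)⁻¹ ≤ 0.31408 := by norm_num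
    linarith
  | succ m hm1 ih =>
    have h1 := ih (by omega)
    have h2 := h.W_step hm
    have h3 : 0 < ‖W c' n m‖ := h.W_pos (by omega)
    have h4 : ‖W c' n (m + 1)‖⁻¹ ≤ (2.4875 * ‖W c' n m‖)⁻¹ := inv_anti₀ (by positivity) h2
    rw [mul_inv] at h4
    have h5 : (2.4875 : ℝ)⁻¹ ≤ 0.40202 := by norm_num
    have h6 : 0 < ‖W c' n m‖⁻¹ := inv_pos.2 h3
    have h7 := mul_le_mul_of_nonneg_right h5 h6.le
    rw [Finset.sum_range_succ]
    linarith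

theorem sum_inv_le {m : ℕ} (hm : m ≤ q) : ∑ l ∈ range m, ‖W c' n l‖⁻¹ ≤ 1.5253 := by
  rcases Nat.lt_or_ge m 2 with hm2 | hm2
  · have h1 : ∑ l ∈ range m, ‖W c' n l‖⁻¹ ≤ ∑ l ∈ range 1, ‖W c' n l‖⁻¹ :=
      Finset.sum_le_sum_of_subset_of_nonneg (Finset.range_subset_range.2 (by omega))
        fun i _ _ => by positivity
    rw [Finset.sum_range_one, W_zero, norm_one, inv_one] at h1
    linarith
  · obtain ⟨k, rfl⟩ : ∃ k, m = k + 1 := ⟨m - 1, by omega⟩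
    have h1 := h.sum_inv (m := k) (by omega) (by omega)
    have h3 : 0 < ‖W c' n k‖ := h.W_pos (by omega)
    have h6 : 0 < ‖W c' n k‖⁻¹ := inv_pos.2 h3
    rw [Finset.sum_range_succ]
    linarith

theorem norm_Dp {i : ℕ} (hi : 1 ≤ i) (hin : i ≤ n) : ‖Dp c i‖ = ‖A c i‖ * ‖Gs c i‖ := by
  rw [Dp_eq_mul hi fun j hj => h.hc.ne j (Finset.Ico_subset_Ico_right hin hj), norm_mul]

theorem par' {m : ℕ} (hm : m < q) {i : ℕ} (hi : 1 ≤ i) (hin : i ≤ n) :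
    ‖Dx c' (crit c' (m * n)) i - Dp c i‖ ≤ 0.005 * ‖A c i‖ * ‖Gs c n‖ := by
  have ha := h.a_pos
  have h1 := (h.near m hm).par i (Finset.mem_Icc.2 ⟨hi, hin⟩)
  rw [h.norm_Dp h.hc.one_le le_rfl] at h1
  have h2 : ‖Dx c' (crit c' (m * n)) i - Dp c i‖ * ‖A c n‖ ≤ 0.005 * ‖A c i‖ * ‖Gs c n‖ * ‖A c n‖ := by
    linarith
  exact le_of_mul_le_mul_right h2 ha

theorem norm_Dx {m : ℕ} (hm : m < q) {i : ℕ} (hi : 1 ≤ i) (hin : i ≤ n) :
    ‖Dx c' (crit c' (m * n)) i‖ =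
      ‖B c' (crit c' (m * n)) i‖ * ‖gB c' (crit c' (m * n)) i‖ := by
  rw [Dx_eq_mul hi fun l hl => ?_, norm_mul]
  rw [Finset.mem_Icc] at hl
  exact norm_pos_iff.1 (h.B_pos hm hl.1 (hl.2.trans hin))

theorem gB_le {m : ℕ} (hm : m < q) {i : ℕ} (hi : 1 ≤ i) (hin : i ≤ n) :
    ‖gB c' (crit c' (m * n)) i‖ ≤ 1.00503 * ‖Gs c i‖ + 0.00503 * ‖Gs c n‖ := by
  have h1 := h.par' hm hi hin
  have h2 := norm_le_norm_add_norm_sub' (Dx c' (crit c' (m * n)) i) (Dp c i)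
  rw [h.norm_Dp hi hin, h.norm_Dx hm hi hin] at h2
  have h3 := h.B_ge hm hi hin
  have hA : 0 < ‖A c i‖ := norm_pos_iff.2 (h.A_ne hin)
  have h4 := mul_le_mul_of_nonneg_right h3 (norm_nonneg (gB c' (crit c' (m * n)) i))
  have h5 : ‖A c i‖ * (0.995 * ‖gB c' (crit c' (m * n)) i‖) ≤
      ‖A c i‖ * (‖Gs c i‖ + 0.005 * ‖Gs c n‖) := by nlinarith
  have h6 := le_of_mul_le_mul_left h5 hA
  have h7 := norm_nonneg (Gs c i)
  have h8 := norm_nonneg (Gs c n)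
  linarith

theorem gB_ge (hm : 0 < q) : 0.99 * ‖Gs c n‖ ≤ ‖gB c' (crit c' (0 * n)) n‖ := by
  have hn := h.hc.one_le
  have h1 := h.par' hm hn le_rfl
  have h2 := norm_le_norm_add_norm_sub (Dx c' (crit c' (0 * n)) n) (Dp c n)
  rw [h.norm_Dp hn le_rfl, h.norm_Dx hm hn le_rfl] at h2
  have h3 := h.B_le hm hn le_rfl
  have hA := h.a_pos
  have h4 := mul_le_mul_of_nonneg_right h3 (norm_nonneg (gB c' (crit c' (0 * n)) n))
  have h5 : ‖A c n‖ * (0.995 * ‖Gs c n‖) ≤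
      ‖A c n‖ * (1.005 * ‖gB c' (crit c' (0 * n)) n‖) := by nlinarith
  have h6 := le_of_mul_le_mul_left h5 hA
  have h8 := norm_nonneg (Gs c n)
  linarith

theorem Gs_mul_le {m : ℕ} (hm : m ≤ q) :
    ‖Gs c' (m * n)‖ ≤ 1.0101 * ‖Gs c n‖ * ∑ l ∈ range m, ‖W c' n l‖⁻¹ := by
  induction m with
  | zero => rw [zero_mul, Gs_zero, norm_zero, Finset.sum_range_zero, mul_zero]
  | succ m ih =>
    have h1 := ih (by omega)
    have h2 := h.gB_le (m := m) (by omega) h.hc.one_le le_rfl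
    have hW : 0 < ‖W c' n m‖ := h.W_pos (by omega)
    have h6 : 0 < ‖W c' n m‖⁻¹ := inv_pos.2 hW
    rw [add_one_mul, Gs_eq, Finset.sum_range_succ, mul_add]
    have h3 : ‖(W c' n m)⁻¹ * gB c' (crit c' (m * n)) n‖ ≤ 1.0101 * ‖Gs c n‖ * ‖W c' n m‖⁻¹ := by
      rw [norm_mul, norm_inv, mul_comm]
      refine mul_le_mul_of_nonneg_right ?_ h6.le
      have := norm_nonneg (Gs c n)
      linarith
    exact (norm_add_le _ _).trans (add_le_add h1 h3)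

theorem Gs_le {m : ℕ} (hm : m < q) {i : ℕ} (hi : 1 ≤ i) (hin : i ≤ n) :
    ‖Gs c' (m * n + i)‖ ≤ 1.5408 * ‖Gs c n‖ + 1.0051 * (‖W c' n m‖⁻¹ * ‖Gs c i‖) := by
  have h1 := h.Gs_mul_le hm.le
  have h2 := h.gB_le hm hi hin
  have hW : 0 < ‖W c' n m‖ := h.W_pos hm
  have h6 : 0 < ‖W c' n m‖⁻¹ := inv_pos.2 hW
  have h3 := h.sum_inv_le (m := m + 1) hm
  rw [Finset.sum_range_succ] at h3
  have h7 := norm_nonneg (Gs c i)
  have h8 := norm_nonneg (Gs c n)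
  have h4 : ‖(W c' n m)⁻¹ * gB c' (crit c' (m * n)) i‖ ≤
      ‖W c' n m‖⁻¹ * (1.00503 * ‖Gs c i‖ + 0.00503 * ‖Gs c n‖) := by
    rw [norm_mul, norm_inv]
    exact mul_le_mul_of_nonneg_left h2 h6.le
  rw [Gs_eq]
  refine (norm_add_le _ _).trans ?_
  have h5 := mul_le_mul_of_nonneg_left h3 (show 0 ≤ 1.0101 * ‖Gs c n‖ by positivity)
  have h9 : 0 ≤ ‖W c' n m‖⁻¹ * ‖Gs c i‖ := by positivity
  have h10 : 0 ≤ ‖W c' n m‖⁻¹ * ‖Gs c n‖ := by positivity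
  nlinarith

theorem Gs_mul_le' {m : ℕ} (hm : m ≤ q) : ‖Gs c' (m * n)‖ ≤ 1.5408 * ‖Gs c n‖ := by
  have h1 := h.Gs_mul_le hm
  have h3 := h.sum_inv_le hm
  have h8 := norm_nonneg (Gs c n)
  have h5 := mul_le_mul_of_nonneg_left h3 (show 0 ≤ 1.0101 * ‖Gs c n‖ by positivity)
  linarith

theorem Gs_ge {m : ℕ} (hm1 : 1 ≤ m) (hm : m ≤ q) :
    (0.99 - 1.0101 * (∑ l ∈ range m, ‖W c' n l‖⁻¹ - 1)) * ‖Gs c n‖ ≤ ‖Gs c' (m * n)‖ := by
  induction m, hm1 using Nat.le_induction with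
  | base =>
    have h0 := Gs_eq c' n 0 n
    have h1 := h.gB_ge (by have := h.hq; omega)
    rw [W_zero, inv_one, one_mul] at h0
    rw [zero_mul] at h0 h1
    rw [Gs_zero, zero_add, zero_add] at h0
    rw [one_mul n, h0, Finset.sum_range_one, W_zero, norm_one, inv_one]
    linarith
  | succ m hm1 ih =>
    have h1 := ih (by omega)
    have h2 := h.gB_le (m := m) (by omega) h.hc.one_le le_rfl
    have hW : 0 < ‖W c' n m‖ := h.W_pos (by omega)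
    have h6 : 0 < ‖W c' n m‖⁻¹ := inv_pos.2 hW
    have h8 := norm_nonneg (Gs c n)
    rw [add_one_mul, Gs_eq, Finset.sum_range_succ]
    have h3 : ‖(W c' n m)⁻¹ * gB c' (crit c' (m * n)) n‖ ≤ 1.0101 * ‖Gs c n‖ * ‖W c' n m‖⁻¹ := by
      rw [norm_mul, norm_inv, mul_comm]
      refine mul_le_mul_of_nonneg_right ?_ h6.le
      linarith
    have h4 := norm_sub_norm_le (Gs c' (m * n)) (-((W c' n m)⁻¹ * gB c' (crit c' (m * n)) n))
    rw [sub_neg_eq_add, norm_neg] at h4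
    nlinarith

theorem Gs_third : ‖Gs c n‖ ≤ 3 * ‖Gs c' (q * n)‖ := by
  have hq := h.hq
  have h1 := h.Gs_ge (m := q) (by omega) le_rfl
  have h2 := h.sum_inv_le le_rfl
  have h3 := norm_nonneg (Gs c n)
  have h4 : (1 / 3 : ℝ) ≤ 0.99 - 1.0101 * (∑ l ∈ range q, ‖W c' n l‖⁻¹ - 1) := by linarith
  have h5 := mul_le_mul_of_nonneg_right h4 h3
  linarith

/-- the orbit of `c'` does not vanish -/
theorem crit_ne {j : ℕ} (hj : j ∈ Ico 1 (q * n)) : crit c' j ≠ 0 := by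
  rw [Finset.mem_Ico] at hj
  have hn := h.hc.one_le
  have hdm : j = (j / n) * n + j % n := by
    rw [mul_comm]; exact (Nat.div_add_mod j n).symm
  have hlt := Nat.mod_lt j hn
  have hm : j / n < q := (Nat.div_lt_iff_lt_mul hn).2 hj.2
  set m := j / n
  set i := j % n
  rcases Nat.eq_zero_or_pos i with hi | hi
  · have hm1 : 1 ≤ m := by
      rcases Nat.eq_zero_or_pos m with h0 | h0
      · rw [h0, hi, zero_mul] at hdm
        omega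
      · exact h0
    rw [hi, add_zero] at hdm
    rw [hdm]
    intro h0
    have := h.lo m hm1 hm
    rw [h0, norm_zero, mul_zero] at this
    norm_num at this
  · rw [hdm, Pool.Agent.H47.MB.crit_add]
    have hi' : i ∈ Ico 1 n := Finset.mem_Ico.2 ⟨hi, hlt⟩
    have h1 := norm_ge_of_sub ((h.near m hm).orbit i hi')
    have h2 : 0 < ‖crit c i‖ := norm_pos_iff.2 (h.hc.ne i hi')
    exact norm_pos_iff.1 (lt_of_lt_of_le (by positivity) h1)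

/-- one term inside a block -/
theorem term_le {m : ℕ} (hm : m < q) {i : ℕ} (hi : i ∈ Ico 1 n) :
    ‖A c' (m * n + i)‖ / ‖crit c' (m * n + i)‖ ≤
      ‖W c' n m‖ * (1.0101 * (‖A c i‖ / ‖crit c i‖)) := by
  have hi' := Finset.mem_Ico.1 hi
  have h1 := norm_ge_of_sub ((h.near m hm).orbit i hi)
  have h2 : 0 < ‖crit c i‖ := norm_pos_iff.2 (h.hc.ne i hi)
  have h3 : 0 < ‖(quad c')^[i] (crit c' (m * n))‖ := lt_of_lt_of_le (by positivity) h1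
  have h4 := h.B_le hm hi'.1 hi'.2.le
  rw [A_eq c' n m hi'.1, norm_mul, Pool.Agent.H47.MB.crit_add, mul_div_assoc]
  refine mul_le_mul_of_nonneg_left ?_ (norm_nonneg _)
  rw [← mul_div_assoc, div_le_div_iff₀ h3 h2]
  have h5 : 0 ≤ ‖A c i‖ := norm_nonneg _
  calc ‖B c' (crit c' (m * n)) i‖ * ‖crit c i‖ ≤ 1.005 * ‖A c i‖ * ‖crit c i‖ := by gcongr
    _ ≤ 1.0101 * ‖A c i‖ * ((1 - 0.005) * ‖crit c i‖) := by
      have : 0 ≤ ‖A c i‖ * ‖crit c i‖ := by positivity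
      nlinarith
    _ ≤ 1.0101 * ‖A c i‖ * ‖(quad c')^[i] (crit c' (m * n))‖ := by gcongr

/-- the term at the beginning of a block -/
theorem term_mul_le {k : ℕ} (hk : k + 1 < q) :
    ‖A c' ((k + 1) * n)‖ / ‖crit c' ((k + 1) * n)‖ ≤ ‖W c' n k‖ * (0.804 * ‖A c n‖ ^ 2) := by
  have ha := h.a_pos
  have hn := h.hc.one_le
  have h4 := h.lo (k + 1) (by omega) hk
  have h5 : 0 < ‖crit c' ((k + 1) * n)‖ := by
    rcases (norm_nonneg (crit c' ((k + 1) * n))).eq_or_lt with h0 | h0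
    · rw [← h0, mul_zero] at h4
      norm_num at h4
    · exact h0
  rw [div_le_iff₀ h5]
  have h6 := h.B_le (m := k) (by omega) hn le_rfl
  have h7 : A c' ((k + 1) * n) = W c' n k * B c' (crit c' (k * n)) n := by
    rw [add_one_mul, A_eq c' n k hn]
  rw [h7, norm_mul, mul_assoc]
  refine mul_le_mul_of_nonneg_left ?_ (norm_nonneg _)
  nlinarith

theorem P_le {m : ℕ} (hm1 : 1 ≤ m) (hm : m ≤ q) :
    P c' (m * n) ≤ ‖W c' n (m - 1)‖ * (1.69 * P c n + 0.541 * ‖A c n‖ ^ 2) := by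
  have ha := h.a_pos
  have hn := h.hc.one_le
  have hS0 : 0 ≤ P c n := Finset.sum_nonneg fun i _ => by positivity
  have inner : ∀ m < q, ∑ i ∈ Ico 1 n, ‖A c' (m * n + i)‖ / ‖crit c' (m * n + i)‖ ≤
      ‖W c' n m‖ * (1.0101 * P c n) := by
    intro m hm
    unfold P
    rw [mul_sum, mul_sum]
    exact Finset.sum_le_sum fun i hi => h.term_le hm hi
  induction m, hm1 using Nat.le_induction with
  | base =>
    have h1 := inner 0 (by omega)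
    rw [Nat.sub_self, one_mul]
    simp only [zero_mul, zero_add] at h1
    rw [W_zero, norm_one, one_mul] at h1 ⊢
    have h2 : P c' n = ∑ i ∈ Ico 1 n, ‖A c' i‖ / ‖crit c' i‖ := rfl
    rw [h2]
    have : 0 ≤ ‖A c n‖ ^ 2 := by positivity
    linarith
  | succ m hm1 ih =>
    have h1 := ih (by omega)
    obtain ⟨k, rfl⟩ : ∃ k, m = k + 1 := ⟨m - 1, by omega⟩
    simp only [Nat.add_sub_cancel] at h1 ⊢
    have hN : 1 ≤ (k + 1) * n := Nat.mul_pos (by omega) hn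
    have h0 : P c' ((k + 1 + 1) * n) = P c' ((k + 1) * n) +
        ‖A c' ((k + 1) * n)‖ / ‖crit c' ((k + 1) * n)‖ +
        ∑ i ∈ Ico 1 n, ‖A c' ((k + 1) * n + i)‖ / ‖crit c' ((k + 1) * n + i)‖ := by
      unfold P
      rw [add_one_mul (k + 1) n, sum_block _ hN hn]
    rw [h0]
    have h2 := inner (k + 1) (by omega)
    have h3 := h.term_mul_le (k := k) (by omega)
    have h8 := h.W_step (m := k) (by omega)
    have h9 := norm_nonneg (W c' n k)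
    have h10 : 0 ≤ ‖A c n‖ ^ 2 := by positivity
    have h11 : ‖W c' n k‖ ≤ 0.40202 * ‖W c' n (k + 1)‖ := by linarith
    have h12 : ‖W c' n k‖ * (1.69 * P c n + 0.541 * ‖A c n‖ ^ 2 + 0.804 * ‖A c n‖ ^ 2) ≤
        0.40202 * ‖W c' n (k + 1)‖ * (1.69 * P c n + 0.541 * ‖A c n‖ ^ 2 + 0.804 * ‖A c n‖ ^ 2) :=
      mul_le_mul_of_nonneg_right h11 (by positivity)
    have h13 : 0 ≤ ‖W c' n (k + 1)‖ * P c n := by positivity
    have h14 : 0 ≤ ‖W c' n (k + 1)‖ * ‖A c n‖ ^ 2 := by positivity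
    nlinarith

/-- the terms of `Q` -/
theorem Q_eq : Q c n = ∑ i ∈ Ico 1 n, ‖A c i‖ * ‖Gs c i‖ ^ 2 / ‖crit c i‖ := by
  unfold Q
  refine Finset.sum_congr rfl fun i hi => ?_
  have hi' := Finset.mem_Ico.1 hi
  exact term_eq (h.A_ne hi'.2.le)
    (Dp_eq_mul hi'.1 fun j hj => h.hc.ne j (Finset.Ico_subset_Ico_right hi'.2.le hj))

theorem Q_eq' : Q c' (q * n) = ∑ j ∈ Ico 1 (q * n), ‖A c' j‖ * ‖Gs c' j‖ ^ 2 / ‖crit c' j‖ := by
  unfold Q
  refine Finset.sum_congr rfl fun i hi => ?_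
  have hi' := Finset.mem_Ico.1 hi
  have hne : ∀ j ∈ Ico 1 i, crit c' j ≠ 0 := fun j hj =>
    h.crit_ne (Finset.Ico_subset_Ico_right hi'.2.le hj)
  exact term_eq (A_ne_zero hne) (Dp_eq_mul hi'.1 hne)

theorem termQ_le {m : ℕ} (hm : m < q) {i : ℕ} (hi : i ∈ Ico 1 n) :
    ‖A c' (m * n + i)‖ * ‖Gs c' (m * n + i)‖ ^ 2 / ‖crit c' (m * n + i)‖ ≤
      ‖W c' n m‖ * ‖Gs c n‖ ^ 2 * (4.797 * (‖A c i‖ / ‖crit c i‖)) +
        2.041 * ‖W c' n m‖⁻¹ * (‖A c i‖ * ‖Gs c i‖ ^ 2 / ‖crit c i‖) := by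
  have hi' := Finset.mem_Ico.1 hi
  have h1 := h.term_le hm hi
  have h2 := h.Gs_le hm hi'.1 hi'.2.le
  have hW := h.W_pos hm
  set w := ‖W c' n m‖
  set g := ‖Gs c n‖
  set gi := ‖Gs c i‖
  have hg : 0 ≤ g := norm_nonneg _
  have hgi : 0 ≤ gi := norm_nonneg _
  have h3 : ‖Gs c' (m * n + i)‖ ^ 2 ≤ 4.7482 * g ^ 2 + 2.0205 * (w⁻¹ * gi) ^ 2 := by
    have h4 : ‖Gs c' (m * n + i)‖ ^ 2 ≤ (1.5408 * g + 1.0051 * (w⁻¹ * gi)) ^ 2 := by gcongr
    have h5 := sq_nonneg (1.5408 * g - 1.0051 * (w⁻¹ * gi))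
    have h6 : 0 ≤ g ^ 2 := by positivity
    have h7 : 0 ≤ (w⁻¹ * gi) ^ 2 := by positivity
    nlinarith
  have h4 : 0 ≤ ‖A c i‖ / ‖crit c i‖ := by positivity
  calc ‖A c' (m * n + i)‖ * ‖Gs c' (m * n + i)‖ ^ 2 / ‖crit c' (m * n + i)‖
      = ‖A c' (m * n + i)‖ / ‖crit c' (m * n + i)‖ * ‖Gs c' (m * n + i)‖ ^ 2 := by ring
    _ ≤ w * (1.0101 * (‖A c i‖ / ‖crit c i‖)) * (4.7482 * g ^ 2 + 2.0205 * (w⁻¹ * gi) ^ 2) := by
      gcongr
    _ = 1.0101 * 4.7482 * (w * g ^ 2 * (‖A c i‖ / ‖crit c i‖)) +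
        1.0101 * 2.0205 * ((w * w⁻¹) * w⁻¹ * (‖A c i‖ * gi ^ 2 / ‖crit c i‖)) := by ring
    _ = 1.0101 * 4.7482 * (w * g ^ 2 * (‖A c i‖ / ‖crit c i‖)) +
        1.0101 * 2.0205 * (w⁻¹ * (‖A c i‖ * gi ^ 2 / ‖crit c i‖)) := by
      rw [mul_inv_cancel₀ hW.ne', one_mul]
    _ ≤ w * g ^ 2 * (4.797 * (‖A c i‖ / ‖crit c i‖)) +
        2.041 * w⁻¹ * (‖A c i‖ * gi ^ 2 / ‖crit c i‖) := by
      have h5 : 0 ≤ w * g ^ 2 * (‖A c i‖ / ‖crit c i‖) := by positivity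
      have h6 : 0 ≤ w⁻¹ * (‖A c i‖ * gi ^ 2 / ‖crit c i‖) := by positivity
      nlinarith

theorem Q_le {m : ℕ} (hm1 : 1 ≤ m) (hm : m ≤ q) :
    ∑ j ∈ Ico 1 (m * n), ‖A c' j‖ * ‖Gs c' j‖ ^ 2 / ‖crit c' j‖ ≤
      ‖W c' n (m - 1)‖ * ‖Gs c n‖ ^ 2 * (8.03 * P c n + 1.284 * ‖A c n‖ ^ 2) +
        2.041 * Q c n * ∑ l ∈ range m, ‖W c' n l‖⁻¹ := by
  have ha := h.a_pos
  have hn := h.hc.one_le
  have hP0 : 0 ≤ P c n := Finset.sum_nonneg fun i _ => by positivity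
  have hQ0 : 0 ≤ Q c n := Finset.sum_nonneg fun i _ => by positivity
  have inner : ∀ m < q, ∑ i ∈ Ico 1 n, ‖A c' (m * n + i)‖ * ‖Gs c' (m * n + i)‖ ^ 2 /
      ‖crit c' (m * n + i)‖ ≤ ‖W c' n m‖ * ‖Gs c n‖ ^ 2 * (4.797 * P c n) +
        2.041 * ‖W c' n m‖⁻¹ * Q c n := by
    intro m hm
    rw [h.Q_eq]
    unfold P
    rw [mul_sum, mul_sum, mul_sum, ← Finset.sum_add_distrib]
    exact Finset.sum_le_sum fun i hi => h.termQ_le hm hi
  induction m, hm1 using Nat.le_induction with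
  | base =>
    have h1 := inner 0 (by omega)
    rw [Nat.sub_self, one_mul, Finset.sum_range_one]
    simp only [zero_mul, zero_add] at h1
    rw [W_zero, norm_one, one_mul, inv_one] at h1 ⊢
    have h2 : 0 ≤ ‖Gs c n‖ ^ 2 * P c n := by positivity
    have h3 : 0 ≤ ‖Gs c n‖ ^ 2 * ‖A c n‖ ^ 2 := by positivity
    nlinarith
  | succ m hm1 ih =>
    have h1 := ih (by omega)
    obtain ⟨k, rfl⟩ : ∃ k, m = k + 1 := ⟨m - 1, by omega⟩
    simp only [Nat.add_sub_cancel] at h1 ⊢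
    have hN : 1 ≤ (k + 1) * n := Nat.mul_pos (by omega) hn
    rw [add_one_mul (k + 1) n, sum_block _ hN hn, Finset.sum_range_succ _ (k + 1)]
    have h2 := inner (k + 1) (by omega)
    have h3 : ‖A c' ((k + 1) * n)‖ * ‖Gs c' ((k + 1) * n)‖ ^ 2 / ‖crit c' ((k + 1) * n)‖ ≤
        ‖W c' n k‖ * ‖Gs c n‖ ^ 2 * (1.909 * ‖A c n‖ ^ 2) := by
      have h4 := h.term_mul_le (k := k) (by omega)
      have h5 := h.Gs_mul_le' (m := k + 1) (by omega)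
      have h6 : ‖Gs c' ((k + 1) * n)‖ ^ 2 ≤ (1.5408 * ‖Gs c n‖) ^ 2 := by gcongr
      calc ‖A c' ((k + 1) * n)‖ * ‖Gs c' ((k + 1) * n)‖ ^ 2 / ‖crit c' ((k + 1) * n)‖
          = ‖A c' ((k + 1) * n)‖ / ‖crit c' ((k + 1) * n)‖ * ‖Gs c' ((k + 1) * n)‖ ^ 2 := by ring
        _ ≤ ‖W c' n k‖ * (0.804 * ‖A c n‖ ^ 2) * (1.5408 * ‖Gs c n‖) ^ 2 := by gcongr
        _ = 0.804 * 1.5408 ^ 2 * (‖W c' n k‖ * ‖Gs c n‖ ^ 2 * ‖A c n‖ ^ 2) := by ring
        _ ≤ ‖W c' n k‖ * ‖Gs c n‖ ^ 2 * (1.909 * ‖A c n‖ ^ 2) := by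
          have : 0 ≤ ‖W c' n k‖ * ‖Gs c n‖ ^ 2 * ‖A c n‖ ^ 2 := by positivity
          nlinarith
    have h8 := h.W_step (m := k) (by omega)
    have h9 := norm_nonneg (W c' n k)
    have h11 : ‖W c' n k‖ ≤ 0.40202 * ‖W c' n (k + 1)‖ := by linarith
    have h12 : ‖W c' n k‖ * (‖Gs c n‖ ^ 2 * (8.03 * P c n + 3.193 * ‖A c n‖ ^ 2)) ≤
        0.40202 * ‖W c' n (k + 1)‖ * (‖Gs c n‖ ^ 2 * (8.03 * P c n + 3.193 * ‖A c n‖ ^ 2)) :=
      mul_le_mul_of_nonneg_right h11 (by positivity)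
    have h13 : 0 ≤ ‖W c' n (k + 1)‖ * (‖Gs c n‖ ^ 2 * P c n) := by positivity
    have h14 : 0 ≤ ‖W c' n (k + 1)‖ * (‖Gs c n‖ ^ 2 * ‖A c n‖ ^ 2) := by positivity
    linarith

end Hyp

theorem rowR' : StatR := by
  intro c n c' q hc hdist hq hnear hX hone hzero
  have h : Hyp c n c' q := ⟨hc, hq, hnear, fun m h1 h2 => (hX m h1 h2).1,
    fun m h1 h2 => (hX m h1 h2).2, hone⟩
  have hn := hc.one_le
  have ha := h.a_pos
  have hDp : 0 < ‖Dp c n‖ := norm_pos_iff.2 hc.dp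
  have hne : ∀ j ∈ Ico 1 (q * n), crit c' j ≠ 0 := fun j hj => h.crit_ne hj
  have hqn : 1 ≤ q * n := Nat.mul_pos (by omega) hn
  have hG : ‖Dp c n‖ = ‖A c n‖ * ‖Gs c n‖ := h.norm_Dp hn le_rfl
  have hG' : ‖Dp c' (q * n)‖ = ‖A c' (q * n)‖ * ‖Gs c' (q * n)‖ := by
    rw [Dp_eq_mul hqn hne, norm_mul]
  have hG3 := h.Gs_third
  have hGu := h.Gs_mul_le' (m := q) le_rfl
  have hPle := h.P_le (m := q) (by omega) le_rfl
  have hQle := h.Q_le (m := q) (by omega) le_rfl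
  rw [← h.Q_eq'] at hQle
  have hI := h.sum_inv_le (m := q) le_rfl
  obtain ⟨p, rfl⟩ : ∃ p, q = p + 1 := ⟨q - 1, by omega⟩
  rw [Nat.add_sub_cancel] at hPle hQle
  have hA' : ‖A c' ((p + 1) * n)‖ = ‖W c' n p‖ * ‖B c' (crit c' (p * n)) n‖ := by
    rw [add_one_mul, A_eq c' n p hn, norm_mul]
  have hQp := h.W_ge (m := p) (by omega) (by omega)
  have hQu := h.W_le (m := p) (by omega)
  have hB1 := h.B_ge (m := p) (by omega) hn le_rfl
  have hB2 := h.B_le (m := p) (by omega) hn le_rfl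
  have hW0 := norm_nonneg (W c' n p)
  have hAge1 : ‖W c' n p‖ * (0.995 * ‖A c n‖) ≤ ‖A c' ((p + 1) * n)‖ := by
    rw [hA']
    exact mul_le_mul_of_nonneg_left hB1 hW0
  have hAle1 : ‖A c' ((p + 1) * n)‖ ≤ 5 ^ p * (1.005 * ‖A c n‖) := by
    rw [hA']
    exact mul_le_mul hQu hB2 (norm_nonneg _) (by positivity)
  have hAge : 2 ^ p * ‖A c n‖ ≤ ‖A c' ((p + 1) * n)‖ := by
    have := mul_le_mul_of_nonneg_right hQp ha.le
    linarith
  have hp8 : (524288 : ℝ) ≤ 2 ^ p := by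
    calc (524288 : ℝ) = 2 ^ 19 := by norm_num
      _ ≤ 2 ^ p := pow_le_pow_right₀ one_le_two (by omega)
  have hA8 : 524288 * ‖A c n‖ ≤ ‖A c' ((p + 1) * n)‖ :=
    (mul_le_mul_of_nonneg_right hp8 ha.le).trans hAge
  have hW1 : 1 ≤ ‖W c' n p‖ := by linarith
  set a' := ‖A c' ((p + 1) * n)‖ with ha'
  have ha'0 : 0 < a' := by linarith
  set g := ‖Gs c n‖ with hg
  set g' := ‖Gs c' ((p + 1) * n)‖ with hg'
  have hg0 : 0 < g := by
    rcases (norm_nonneg (Gs c n)).eq_or_lt with h0 | h0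
    · rw [hg, ← h0, mul_zero] at hG
      linarith
    · exact h0
  have hg'0 : 0 < g' := by linarith
  set P0 := P c n with hP0def
  set Q0 := Q c n with hQ0def
  have hP0 : 0 ≤ P0 := Finset.sum_nonneg fun i _ => by positivity
  have hQ0 : 0 ≤ Q0 := Finset.sum_nonneg fun i _ => by positivity
  have hsP := hc.smallP
  have hsQ := hc.smallQ
  rw [← hP0def] at hsP
  rw [← hQ0def, hG, mul_pow] at hsQ
  set a := ‖A c n‖ with hadef
  have hP'a : P c' ((p + 1) * n) ≤ a * a' := by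
    have h1 : 1.69 * P0 + 0.541 * a ^ 2 ≤ 0.995 * a * a := by nlinarith
    have h2 := mul_le_mul_of_nonneg_left h1 hW0
    have h3 := mul_le_mul_of_nonneg_right hAge1 ha.le
    linarith
  have hQ'a : Q c' ((p + 1) * n) ≤ 1.3 * g ^ 2 * (a * a') := by
    have h1 : 8.03 * P0 + 1.284 * a ^ 2 ≤ 1.285 * a ^ 2 := by linarith
    have h2 : ‖W c' n p‖ * g ^ 2 * (8.03 * P0 + 1.284 * a ^ 2) ≤ ‖W c' n p‖ * g ^ 2 * (1.285 * a ^ 2) := by
      gcongr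
    have h3 : 2.041 * Q0 * ∑ l ∈ range (p + 1), ‖W c' n l‖⁻¹ ≤ 2.041 * Q0 * 1.5253 := by
      gcongr
    have h4 : g ^ 2 * a ^ 2 * 1 ≤ g ^ 2 * a ^ 2 * ‖W c' n p‖ := by gcongr
    have h5 : g ^ 2 * a * (‖W c' n p‖ * (0.995 * a)) ≤ g ^ 2 * a * a' := by gcongr
    have h6 : 0 ≤ g ^ 2 * a ^ 2 * ‖W c' n p‖ := by positivity
    nlinarith
  have hgg : g ^ 2 ≤ (3 * g') ^ 2 := by gcongr
  have hsP' : 10 ^ 4 * P c' ((p + 1) * n) ≤ a' ^ 2 := by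
    have h1 : a * a' ≤ a' / 524288 * a' := by
      refine mul_le_mul_of_nonneg_right ?_ ha'0.le
      rw [le_div_iff₀ (by norm_num)]
      linarith
    nlinarith
  have hsQ' : 10 ^ 4 * Q c' ((p + 1) * n) ≤ ‖Dp c' ((p + 1) * n)‖ ^ 2 := by
    rw [hG', mul_pow]
    have h1 : a * a' ≤ a' / 524288 * a' := by
      refine mul_le_mul_of_nonneg_right ?_ ha'0.le
      rw [le_div_iff₀ (by norm_num)]
      linarith
    have h2 : g ^ 2 * (a * a') ≤ (3 * g') ^ 2 * (a' / 524288 * a') := by gcongr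
    have h3 : 0 ≤ a' ^ 2 * g' ^ 2 := by positivity
    nlinarith
  refine ⟨⟨hqn, hne, hzero, ?_, hsP', hsQ'⟩, ⟨hdist, ?_, ?_, ?_, ?_⟩⟩
  · rw [← norm_pos_iff, hG']
    exact mul_pos ha'0 hg'0
  · rw [hG, hG']
    have h1 : (524288 * a) * (524288 * a) ≤ a' * a' := by gcongr
    have h2 : 30 * (a * a) * g ≤ a' * a' * (3 * g') := by
      have h3 : 30 * (a * a) ≤ a' * a' := by nlinarith
      exact mul_le_mul h3 hG3 hg0.le (by positivity)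
    linarith
  · rw [hG, hG']
    have h1 : a' * a' ≤ (5 ^ p * (1.005 * a)) * (5 ^ p * (1.005 * a)) := by gcongr
    have h2 : a' * a' * g' ≤ (5 ^ p * (1.005 * a)) * (5 ^ p * (1.005 * a)) * (1.5408 * g) :=
      mul_le_mul h1 hGu hg'0.le (by positivity)
    have h3 : (25 : ℝ) ^ (p + 1) = 25 * (5 ^ p * 5 ^ p) := by
      rw [pow_succ, ← mul_pow]
      norm_num
      ring
    rw [h3]
    have h4 : 0 ≤ (5 : ℝ) ^ p * 5 ^ p * (a * a * g) := by positivity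
    nlinarith
  · linarith
  · intro m
    have hdm : m = (m / (p + 1)) * (p + 1) + m % (p + 1) := by
      rw [mul_comm]; exact (Nat.div_add_mod m (p + 1)).symm
    have hlt := Nat.mod_lt m (show 0 < p + 1 by omega)
    have hmn : m * n = (m / (p + 1)) * ((p + 1) * n) + (m % (p + 1)) * n := by
      conv_lhs => rw [hdm]
      ring
    rw [hmn, Pool.Agent.H47.MB.crit_add, Pool.Agent.H48.MB.crit_mul_eq_zero hzero]
    change a * ‖crit c' (m % (p + 1) * n)‖ ≤ 2.3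
    rcases Nat.eq_zero_or_pos (m % (p + 1)) with h0 | h0
    · rw [h0, zero_mul, crit_zero, norm_zero, mul_zero]
      norm_num
    · exact (hX _ h0 hlt).2

end Pool.Agent.H10.MC
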